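import Pool.Agent.KLev.QFinal
import Pool.Agent.KLev.Levels

/-!
# The halving level of a line arrangement: at least `n * exp ((log n) ^ 0.51)` vertices

`height`, `level`, `kLevel`, `IsVertex`, `complexity` and `e` are defined in
`Pool/Agent/KLev/Levels.lean` (namespace `KLev.Levels`).
-/

namespace Pool.Agent.Results.MP_a08d0a_co.BeyondSqrt

open Filter KLev

/-- All large `n` satisfy `e_{⌊n/2⌋}(n) ≥ n * exp ((log n) ^ 0.51)`. -/
theorem result : ∀ᶠ n : ℕ in atTop,
    (n : ℝ) * Real.exp (Real.log n ^ (51 / 100 : ℝ)) ≤ (Levels.e (n / 2) n : ℝ) := by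
  obtain ⟨a, ha⟩ := (finalQ 4).exists_forall_of_atTop
  filter_upwards [eventually_ge_atTop (2 * a + 10)] with n hn
  obtain ⟨N, E, P, hH, hN, hE⟩ := ha (n / 2 - 1) (by omega)
  have h1 := Levels.e_ge hH (n / 2) n (by omega) (by omega)
  have h2 : (E : ℝ) ≤ Levels.e (n / 2) n := by exact_mod_cast h1
  refine le_trans (le_trans ?_ hE) h2
  have hnm : (n : ℝ) ≤ 4 * ((n / 2 - 1 : ℕ) : ℝ) := by
    have : n ≤ 4 * (n / 2 - 1) := by omega
    exact_mod_cast this
  have hn1 : (1 : ℝ) ≤ n := by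
    have : 1 ≤ n := by omega
    exact_mod_cast this
  have hm0 : (0 : ℝ) ≤ ((n / 2 - 1 : ℕ) : ℝ) := Nat.cast_nonneg _
  apply mul_le_mul hnm _ (Real.exp_pos _).le (by positivity)
  apply Real.exp_le_exp.mpr
  apply Real.rpow_le_rpow (Real.log_nonneg hn1) _ (by norm_num)
  apply Real.log_le_log (by linarith)
  linarith

end Pool.Agent.Results.MP_a08d0a_co.BeyondSqrt
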