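import Pool.Agent.KLev.Levels

/-!
# The halving level of a line arrangement: more than `n * exp (C * sqrt (log n))` for every `C`

`height`, `level`, `kLevel`, `IsVertex`, `complexity` and `e` are defined in
`Pool/Agent/KLev/Levels.lean` (namespace `KLev.Levels`).
-/

namespace Pool.Agent.Results.MP_a08d0a_co.EveryConstant

open Filter KLev

/-- For every real `C`, all large `n` satisfy `e_{⌊n/2⌋}(n) ≥ n * exp (C * sqrt (log n))`. -/
theorem result : ∀ C : ℝ, ∀ᶠ n : ℕ in atTop,
    (n : ℝ) * Real.exp (C * Real.sqrt (Real.log n)) ≤ (Levels.e (n / 2) n : ℝ) := by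
  intro C
  obtain ⟨a, ha⟩ := (final (max C 0) (le_max_right _ _)).exists_forall_of_atTop
  filter_upwards [eventually_ge_atTop (2 * a + 10)] with n hn
  obtain ⟨N, E, P, hH, hN, hE⟩ := ha (n / 2 - 1) (by omega)
  have h1 := Levels.e_ge hH (n / 2) n (by omega) (by omega)
  have h2 : (E : ℝ) ≤ Levels.e (n / 2) n := by exact_mod_cast h1
  refine le_trans (le_trans ?_ hE) h2
  have hnm : (n : ℝ) ≤ ((4 * (n / 2 - 1) : ℕ) : ℝ) := by
    have : n ≤ 4 * (n / 2 - 1) := by omega
    exact_mod_cast this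
  have hn0 : (0 : ℝ) < n := by
    have : 0 < n := by omega
    exact_mod_cast this
  apply mul_le_mul hnm _ (Real.exp_pos _).le (by positivity)
  apply Real.exp_le_exp.mpr
  have h3 : C * Real.sqrt (Real.log n) ≤ max C 0 * Real.sqrt (Real.log n) :=
    mul_le_mul_of_nonneg_right (le_max_left _ _) (Real.sqrt_nonneg _)
  refine h3.trans (mul_le_mul_of_nonneg_left ?_ (le_max_right _ _))
  exact Real.sqrt_le_sqrt (Real.log_le_log hn0 hnm)

end Pool.Agent.Results.MP_a08d0a_co.EveryConstant
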